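import Mathlib

set_option autoImplicit false

namespace Pool.Agent.Y49.MG

/-- Closure in the topology of pointwise convergence. -/
theorem mem_closure_fun {X : Type} [TopologicalSpace X] [DiscreteTopology X] (S : Set (X → X))
    (f : X → X) : f ∈ closure S ↔ ∀ F : Finset X, ∃ g ∈ S, ∀ x ∈ F, g x = f x := by
  rw [mem_closure_iff]
  constructor
  · intro h F
    obtain ⟨g, hg1, hg2⟩ := h {g | ∀ x ∈ F, g x = f x} (by
      have : {g : X → X | ∀ x ∈ F, g x = f x} = ⋂ x ∈ F, (fun g : X → X => g x) ⁻¹' {f x} := by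
        ext g
        simp
      rw [this]
      exact isOpen_biInter_finset fun x _ => (isOpen_discrete _).preimage (continuous_apply x))
      (fun x _ => rfl)
    exact ⟨g, hg2, hg1⟩
  · intro h o ho hf
    rw [isOpen_pi_iff] at ho
    obtain ⟨I, u, hu, hsub⟩ := ho f hf
    obtain ⟨g, hg1, hg2⟩ := h I
    refine ⟨g, hsub ?_, hg1⟩
    intro a ha
    rw [hg2 a ha]
    exact (hu a ha).2

/-- A finite set as an injective tuple. -/
theorem exists_tuple {X : Type} (F : Finset X) :
    ∃ (n : ℕ) (a : Fin n → X), Function.Injective a ∧ ∀ x ∈ F, ∃ i, a i = x := by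
  refine ⟨F.card, fun i => (F.equivFin.symm i : X), ?_, ?_⟩
  · intro i j h
    exact F.equivFin.symm.injective (Subtype.ext h)
  · intro x hx
    exact ⟨F.equivFin ⟨x, hx⟩, by simp⟩

theorem pair_injective {X : Type} {x y : X} (h : x ≠ y) : Function.Injective ![x, y] := by
  intro i j hij
  fin_cases i <;> fin_cases j
  · rfl
  · exact absurd hij h
  · exact absurd hij.symm h
  · rfl

end Pool.Agent.Y49.MG
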