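import Mathlib

/-!
# The lattice `M` with continuum many atoms
-/

set_option autoImplicit false

namespace Pool.Agent.Y49.MG

/-- The lattice consisting of an antichain `mid c`, `c` a point of `ℕ → Bool` (so of cardinality
`2 ^ ℵ₀`), together with a least element `bot` and a greatest element `top`. -/
inductive MTwo : Type
  | bot : MTwo
  | mid (c : ℕ → Bool) : MTwo
  | top : MTwo

instance : LE MTwo := ⟨fun a b => a = MTwo.bot ∨ b = MTwo.top ∨ a = b⟩

theorem le_def (a b : MTwo) : a ≤ b ↔ a = MTwo.bot ∨ b = MTwo.top ∨ a = b := Iff.rfl

instance : PartialOrder MTwo where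
  le_refl a := Or.inr (Or.inr rfl)
  le_trans a b c hab hbc := by
    rw [le_def] at *
    rcases hab with h | h | h
    · exact Or.inl h
    · rcases hbc with h' | h' | h'
      · rw [h] at h'
        exact absurd h' (by simp)
      · exact Or.inr (Or.inl h')
      · exact Or.inr (Or.inl (h' ▸ h))
    · rw [h]
      exact hbc
  le_antisymm a b hab hba := by
    rw [le_def] at *
    rcases hab with h | h | h
    · rcases hba with h' | h' | h'
      · rw [h, h']
      · rw [h] at h'
        exact absurd h' (by simp)
      · exact h'.symm
    · rcases hba with h' | h' | h'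
      · rw [h] at h'
        exact absurd h' (by simp)
      · rw [h, h']
      · exact h'.symm
    · exact h

open Classical in
/-- The join. -/
noncomputable def MTwo.sup (a b : MTwo) : MTwo := if a ≤ b then b else if b ≤ a then a else MTwo.top

open Classical in
/-- The meet. -/
noncomputable def MTwo.inf (a b : MTwo) : MTwo := if a ≤ b then a else if b ≤ a then b else MTwo.bot

noncomputable instance : Lattice MTwo where
  sup := MTwo.sup
  inf := MTwo.inf
  le_sup_left a b := by
    change a ≤ MTwo.sup a b
    unfold MTwo.sup
    split_ifs with h1 h2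
    · exact h1
    · exact le_rfl
    · exact Or.inr (Or.inl rfl)
  le_sup_right a b := by
    change b ≤ MTwo.sup a b
    unfold MTwo.sup
    split_ifs with h1 h2
    · exact le_rfl
    · exact h2
    · exact Or.inr (Or.inl rfl)
  sup_le a b c hac hbc := by
    change MTwo.sup a b ≤ c
    unfold MTwo.sup
    split_ifs with h1 h2
    · exact hbc
    · exact hac
    · rw [le_def] at *
      rcases hac with h | h | h
      · exact absurd (Or.inl h) h1
      · exact Or.inr (Or.inl h)
      · rcases hbc with h' | h' | h'
        · exact absurd (Or.inl h') h2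
        · exact Or.inr (Or.inl h')
        · exact absurd (Or.inr (Or.inr (h.trans h'.symm))) h1
  inf_le_left a b := by
    change MTwo.inf a b ≤ a
    unfold MTwo.inf
    split_ifs with h1 h2
    · exact le_rfl
    · exact h2
    · exact Or.inl rfl
  inf_le_right a b := by
    change MTwo.inf a b ≤ b
    unfold MTwo.inf
    split_ifs with h1 h2
    · exact h1
    · exact le_rfl
    · exact Or.inl rfl
  le_inf a b c hab hac := by
    change a ≤ MTwo.inf b c
    unfold MTwo.inf
    split_ifs with h1 h2
    · exact hab
    · exact hac
    · rw [le_def] at *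
      rcases hab with h | h | h
      · exact Or.inl h
      · exact absurd (Or.inr (Or.inl h)) h2
      · rcases hac with h' | h' | h'
        · exact Or.inl h'
        · exact absurd (Or.inr (Or.inl h')) h1
        · exact absurd (Or.inr (Or.inr (h.symm.trans h'))) h1

/-- General criterion: a family `G` with pairwise joins `T` and pairwise meets `B` in a partial
order, with `G c ≠ B, T`, gives a lattice embedding of `MTwo`. -/
theorem embed {P : Type} [PartialOrder P] (B T : P) (G : (ℕ → Bool) → P)
    (hB : ∀ c, B ≤ G c) (hT : ∀ c, G c ≤ T) (hne : ∀ c, G c ≠ B)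
    (hlub : ∀ c d, c ≠ d → IsLUB {G c, G d} T) (hglb : ∀ c d, c ≠ d → IsGLB {G c, G d} B) :
    ∃ F : MTwo → P, Function.Injective F ∧
      ∀ a b, IsLUB {F a, F b} (F (a ⊔ b)) ∧ IsGLB {F a, F b} (F (a ⊓ b)) := by
  have hex : ∀ c : ℕ → Bool, ∃ d : ℕ → Bool, c ≠ d := by
    intro c
    refine ⟨fun n => !c n, fun h => ?_⟩
    have := congrFun h 0
    simp at this
  have hne' : ∀ c, G c ≠ T := by
    intro c h
    obtain ⟨d, hd⟩ := hex c
    have h1 : G d ≤ B := (hglb c d hd).2 (by
      rintro x hx
      rcases hx with rfl | hx
      · rw [h]
        exact hT d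
      · rw [Set.mem_singleton_iff.1 hx])
    exact hne d (le_antisymm h1 (hB d))
  have hinj : ∀ c d, G c = G d → c = d := by
    intro c d h
    by_contra hcd
    have h1 : G c ≤ B := (hglb c d hcd).2 (by
      rintro x hx
      rcases hx with rfl | hx
      · exact le_rfl
      · rw [Set.mem_singleton_iff.1 hx, h])
    exact hne c (le_antisymm h1 (hB c))
  have hBT : B ≠ T := by
    intro h
    exact hne (fun _ => true) (le_antisymm ((hT _).trans h.ge) (hB _))
  let F : MTwo → P := fun a => match a with
    | .bot => B
    | .mid c => G c
    | .top => T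
  have hmono : ∀ a b : MTwo, a ≤ b → F a ≤ F b := by
    rintro a b (rfl | rfl | rfl)
    · cases b with
      | bot => exact le_rfl
      | mid c => exact hB c
      | top => exact (hB (fun _ => true)).trans (hT _)
    · cases a with
      | bot => exact (hB (fun _ => true)).trans (hT _)
      | mid c => exact hT c
      | top => exact le_rfl
    · exact le_rfl
  refine ⟨F, ?_, ?_⟩
  · intro a b h
    cases a with
    | bot =>
      cases b with
      | bot => rfl
      | mid c => exact absurd h.symm (hne c)
      | top => exact absurd h hBT
    | mid c =>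
      cases b with
      | bot => exact absurd h (hne c)
      | mid d => rw [hinj c d h]
      | top => exact absurd h (hne' c)
    | top =>
      cases b with
      | bot => exact absurd h.symm hBT
      | mid c => exact absurd h.symm (hne' c)
      | top => rfl
  · intro a b
    have hcmp : ∀ x y : MTwo, x ≤ y → IsLUB {F x, F y} (F y) ∧ IsGLB {F x, F y} (F x) := by
      intro x y hxy
      refine ⟨⟨?_, ?_⟩, ⟨?_, ?_⟩⟩
      · rintro z (rfl | hz)
        · exact hmono _ _ hxy
        · rw [Set.mem_singleton_iff.1 hz]
      · intro z hz
        exact hz (by simp)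
      · rintro z (rfl | hz)
        · exact le_rfl
        · rw [Set.mem_singleton_iff.1 hz]
          exact hmono _ _ hxy
      · intro z hz
        exact hz (by simp)
    by_cases h1 : a ≤ b
    · rw [sup_eq_right.2 h1, inf_eq_left.2 h1]
      exact hcmp a b h1
    · by_cases h2 : b ≤ a
      · rw [sup_eq_left.2 h2, inf_eq_right.2 h2, Set.pair_comm]
        exact hcmp b a h2
      · have hs : a ⊔ b = MTwo.top := by
          change MTwo.sup a b = _
          rw [MTwo.sup, if_neg h1, if_neg h2]
        have hi : a ⊓ b = MTwo.bot := by
          change MTwo.inf a b = _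
          rw [MTwo.inf, if_neg h1, if_neg h2]
        rw [hs, hi]
        cases a with
        | bot => exact absurd (Or.inl rfl) h1
        | top => exact absurd (Or.inr (Or.inl rfl)) h2
        | mid c =>
          cases b with
          | bot => exact absurd (Or.inl rfl) h2
          | top => exact absurd (Or.inr (Or.inl rfl)) h1
          | mid d =>
            have hcd : c ≠ d := by
              rintro rfl
              exact h1 le_rfl
            exact ⟨hlub c d hcd, hglb c d hcd⟩

end Pool.Agent.Y49.MG
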