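import Mathlib

/-!
# Continuum many permutations that pairwise generate a dense subgroup of the symmetric group

On `ℤ` we place disjoint blocks, the `k`-th one centred at `(k+1)²` and of radius `k`. For a point
`β` of `ℕ → Bool` we let `phi β` be a permutation of `ℤ` preserving every block; on the `k`-th block
it is either the identity or a prescribed permutation, depending on one coordinate of `β`. Then
`g β = phi β ∘ (x ↦ x + 1) ∘ (phi β)⁻¹`.
-/

set_option autoImplicit false

namespace Pool.Agent.Y49.MG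

open Equiv

/-- Centre of the `k`-th block. -/
def ctr (k : ℕ) : ℤ := ((k : ℤ) + 1) ^ 2

/-- `x` lies in the `k`-th block. -/
def Inb (k : ℕ) (x : ℤ) : Prop := (x - ctr k).natAbs ≤ k

theorem inb_unique {k l : ℕ} {x : ℤ} (hk : Inb k x) (hl : Inb l x) : k = l := by
  have key : ∀ {k l : ℕ} {x : ℤ}, Inb k x → Inb l x → ¬ k < l := by
    intro k l x hk hl h
    simp only [Inb, ctr] at hk hl
    have h1 : x ≤ ((k : ℤ) + 1) ^ 2 + k := by omega
    have h2 : ((l : ℤ) + 1) ^ 2 - l ≤ x := by omega
    have h3 : (k : ℤ) + 1 ≤ l := by exact_mod_cast h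
    nlinarith
  rcases lt_trichotomy k l with h | h | h
  · exact absurd h (key hk hl)
  · exact h
  · exact absurd h (key hl hk)

open Classical in
/-- Apply `P k` on the `k`-th block. -/
noncomputable def Phi (P : ℕ → Perm ℤ) (x : ℤ) : ℤ :=
  if h : ∃ k, Inb k x then ctr h.choose + P h.choose (x - ctr h.choose) else x

theorem Phi_in (P : ℕ → Perm ℤ) {k : ℕ} {x : ℤ} (h : Inb k x) :
    Phi P x = ctr k + P k (x - ctr k) := by
  have hex : ∃ k, Inb k x := ⟨k, h⟩
  have : hex.choose = k := inb_unique hex.choose_spec h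
  rw [Phi, dif_pos hex, this]

theorem Phi_out (P : ℕ → Perm ℤ) {x : ℤ} (h : ¬ ∃ k, Inb k x) : Phi P x = x := by
  rw [Phi, dif_neg h]

theorem preserve {π : Perm ℤ} {k : ℕ} (h : ∀ x : ℤ, k < x.natAbs → π x = x) {y : ℤ}
    (hy : y.natAbs ≤ k) : (π y).natAbs ≤ k := by
  by_contra hcon
  push Not at hcon
  have := π.injective (h _ hcon)
  rw [this] at hcon
  omega

theorem Phi_inv (P Q : ℕ → Perm ℤ) (hP : ∀ k, ∀ x : ℤ, k < x.natAbs → P k x = x)
    (hPQ : ∀ k x, Q k (P k x) = x) (x : ℤ) : Phi Q (Phi P x) = x := by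
  by_cases h : ∃ k, Inb k x
  · obtain ⟨k, hk⟩ := h
    have h1 : Inb k (Phi P x) := by
      rw [Phi_in P hk, Inb]
      have := preserve (hP k) hk
      simpa using this
    rw [Phi_in Q h1, Phi_in P hk]
    simp [hPQ]
  · rw [Phi_out P h, Phi_out Q h]

/-- `Phi` as a permutation. -/
noncomputable def PhiPerm (P : ℕ → Perm ℤ) (hP : ∀ k, ∀ x : ℤ, k < x.natAbs → P k x = x) :
    Perm ℤ where
  toFun := Phi P
  invFun := Phi fun k => (P k)⁻¹
  left_inv := Phi_inv P _ hP fun k x => by simp
  right_inv := Phi_inv _ P (fun k x hx => by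
    rw [Perm.inv_eq_iff_eq]
    exact (hP k x hx).symm) fun k x => by simp

/-- Product of the transpositions of a list. -/
def prodSwap (l : List (ℤ × ℤ)) : Perm ℤ := (l.map fun p => swap p.1 p.2).prod

theorem prodSwap_support (l : List (ℤ × ℤ)) :
    ∃ r : ℕ, ∀ x : ℤ, r < x.natAbs → prodSwap l x = x := by
  induction l with
  | nil => exact ⟨0, fun x _ => by simp [prodSwap]⟩
  | cons p l ih =>
    obtain ⟨r, hr⟩ := ih
    refine ⟨max r (max p.1.natAbs p.2.natAbs), fun x hx => ?_⟩
    have h1 : prodSwap (p :: l) x = swap p.1 p.2 (prodSwap l x) := by simp [prodSwap]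
    rw [h1, hr x (by omega)]
    apply swap_apply_of_ne_of_ne
    · rintro rfl
      omega
    · rintro rfl
      omega

theorem exists_list (n : ℕ) (q p : Fin n → ℤ) (hq : Function.Injective q)
    (hp : Function.Injective p) : ∃ l, ∀ i, prodSwap l (q i) = p i := by
  induction n with
  | zero => exact ⟨[], fun i => i.elim0⟩
  | succ n ih =>
    obtain ⟨l, hl⟩ := ih (fun i => q i.castSucc) (fun i => p i.castSucc)
      (hq.comp (Fin.castSucc_injective n)) (hp.comp (Fin.castSucc_injective n))
    refine ⟨(prodSwap l (q (Fin.last n)), p (Fin.last n)) :: l, fun i => ?_⟩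
    have h1 : ∀ x, prodSwap ((prodSwap l (q (Fin.last n)), p (Fin.last n)) :: l) x =
        swap (prodSwap l (q (Fin.last n))) (p (Fin.last n)) (prodSwap l x) := by
      intro x
      simp [prodSwap]
    rw [h1]
    refine Fin.lastCases ?_ (fun i => ?_) i
    · exact swap_apply_left _ _
    · rw [hl i]
      apply swap_apply_of_ne_of_ne
      · rw [← hl i]
        intro h
        have := hq ((prodSwap l).injective h)
        exact (Fin.castSucc_lt_last i).ne this
      · intro h
        exact (Fin.castSucc_lt_last i).ne (hp h)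

/-- Tasks. -/
abbrev Task := ℕ × Bool × List (ℤ × ℤ)

/-- The task of block `k`. -/
def task (k : ℕ) : Option Task := Encodable.decode (Nat.unpair k).1

open Classical in
/-- The permutation of `ℤ` used for block `k` and the point `β`. -/
noncomputable def fam (β : ℕ → Bool) (k : ℕ) : Perm ℤ :=
  match task k with
  | none => 1
  | some t => if β t.1 = t.2.1 ∧ (∀ x : ℤ, k < x.natAbs → prodSwap t.2.2 x = x) then prodSwap t.2.2
      else 1

theorem fam_support (β : ℕ → Bool) (k : ℕ) (x : ℤ) (hx : k < x.natAbs) : fam β k x = x := by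
  unfold fam
  split
  · rfl
  · split_ifs with h
    · exact h.2 x hx
    · rfl

/-- The conjugating permutation. -/
noncomputable def phi (β : ℕ → Bool) : Perm ℤ := PhiPerm (fam β) (fam_support β)

theorem key {α β : ℕ → Bool} (hab : α ≠ β) {n : ℕ} (p q : Fin n → ℤ)
    (hp : Function.Injective p) (hq : Function.Injective q) :
    ∃ m : ℤ, ∀ i, phi α (m + p i) = phi β (m + q i) := by
  obtain ⟨j, hj⟩ := Function.ne_iff.1 hab
  obtain ⟨l, hl⟩ := exists_list n q p hq hp
  obtain ⟨r, hr⟩ := prodSwap_support l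
  set R : ℕ := r + ∑ i, ((p i).natAbs + (q i).natAbs) with hR
  have hpi : ∀ i, (p i).natAbs + (q i).natAbs ≤ R := by
    intro i
    have h0 : (p i).natAbs + (q i).natAbs ≤ ∑ i, ((p i).natAbs + (q i).natAbs) :=
      Finset.single_le_sum (f := fun i => (p i).natAbs + (q i).natAbs)
        (fun i _ => Nat.zero_le _) (Finset.mem_univ i)
    omega
  set t : Task := (j, β j, l) with ht
  set k : ℕ := Nat.pair (Encodable.encode t) R with hk
  have hkR : R ≤ k := Nat.right_le_pair _ _
  have htask : task k = some t := by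
    simp [task, hk]
  have hfβ : fam β k = prodSwap l := by
    simp only [fam, htask]
    rw [if_pos]
    exact ⟨rfl, fun x hx => hr x (by omega)⟩
  have hfα : fam α k = 1 := by
    simp only [fam, htask]
    rw [if_neg]
    rintro ⟨h, _⟩
    exact hj h
  refine ⟨ctr k, fun i => ?_⟩
  have h1 : Inb k (ctr k + p i) := by
    have := hpi i
    simp only [Inb, add_sub_cancel_left]
    omega
  have h2 : Inb k (ctr k + q i) := by
    have := hpi i
    simp only [Inb, add_sub_cancel_left]
    omega
  change Phi (fam α) _ = Phi (fam β) _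
  rw [Phi_in _ h1, Phi_in _ h2, hfα, hfβ, add_sub_cancel_left, add_sub_cancel_left, hl i]
  rfl

/-- The shift. -/
def shift : Perm ℤ := Equiv.addRight 1

theorem shift_zpow (m x : ℤ) : (shift ^ m) x = x + m := by
  have h1 : ∀ n : ℕ, ∀ x, (shift ^ n) x = x + n := by
    intro n
    induction n with
    | zero => intro x; simp
    | succ n ih =>
      intro x
      rw [pow_succ, Perm.mul_apply, ih]
      simp [shift]
      ring
  cases m with
  | ofNat n => simpa using h1 n x
  | negSucc n =>
    rw [zpow_negSucc, Perm.inv_eq_iff_eq, h1]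
    push_cast
    simp only [Int.negSucc_eq]
    ring

/-- The permutations. -/
noncomputable def g (β : ℕ → Bool) : Perm ℤ := phi β * shift * (phi β)⁻¹

theorem g_zpow (β : ℕ → Bool) (m x : ℤ) : (g β ^ m) x = phi β ((phi β)⁻¹ x + m) := by
  rw [g, conj_zpow, Perm.mul_apply, Perm.mul_apply, shift_zpow]

theorem g_free (β : ℕ → Bool) (m x : ℤ) (h : (g β ^ m) x = x) : m = 0 := by
  rw [g_zpow] at h
  have h2 : (phi β)⁻¹ x + m = (phi β)⁻¹ x := by
    apply (phi β).injective
    rw [h]
    simp
  omega

theorem g_dense {α β : ℕ → Bool} (hab : α ≠ β) {n : ℕ} (a b : Fin n → ℤ)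
    (ha : Function.Injective a) (hb : Function.Injective b) :
    ∃ m : ℤ, ∀ i, (g β ^ (-m)) ((g α ^ m) (a i)) = b i := by
  obtain ⟨m, hm⟩ := key hab (fun i => (phi α)⁻¹ (a i)) (fun i => (phi β)⁻¹ (b i))
    ((phi α)⁻¹.injective.comp ha) ((phi β)⁻¹.injective.comp hb)
  refine ⟨m, fun i => ?_⟩
  rw [zpow_neg, Perm.inv_eq_iff_eq, g_zpow, g_zpow, add_comm _ m, add_comm _ m]
  exact hm i

/-- The family on an arbitrary countable infinite set. -/
theorem exists_family (X : Type) [Countable X] [Infinite X] :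
    ∃ G : (ℕ → Bool) → Perm X, (∀ β (m : ℤ) x, (G β ^ m) x = x → m = 0) ∧
      ∀ α β, α ≠ β → ∀ (n : ℕ) (a b : Fin n → X), Function.Injective a → Function.Injective b →
        ∃ m : ℤ, ∀ i, (G β ^ (-m)) ((G α ^ m) (a i)) = b i := by
  obtain ⟨e⟩ : Nonempty (ℤ ≃ X) := nonempty_equiv_of_countable
  have hpow : ∀ β (m : ℤ) x, ((e.permCongrHom (g β)) ^ m) x = e ((g β ^ m) (e.symm x)) := by
    intro β m x
    rw [← map_zpow]
    rfl
  refine ⟨fun β => e.permCongrHom (g β), ?_, ?_⟩
  · intro β m x h
    rw [hpow] at h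
    apply g_free β m (e.symm x)
    have h' := congrArg e.symm h
    simpa using h'
  · intro α β hab n a b ha hb
    obtain ⟨m, hm⟩ := g_dense hab (fun i => e.symm (a i)) (fun i => e.symm (b i))
      (e.symm.injective.comp ha) (e.symm.injective.comp hb)
    refine ⟨m, fun i => ?_⟩
    rw [hpow, hpow, e.symm_apply_apply, hm i]
    simp

end Pool.Agent.Y49.MG
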